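import Pool.Agent.Helper6.CS.Goals2

/-!
# Packet CS-FA (MP_81e84b_lc): strict codes in a world
-/

namespace Pool.Agent.Helper80.CS

open Pool.Agent.Helper6.CS

set_option synthInstance.maxSize 1000000000

theorem ecd_pr {M : Type} [World M] {m n z : M} :
    Ecd (pr m n) z ↔ ∃ c, n = (m * (z + 1) + 1) * c := by
  constructor
  · rintro ⟨m', n', c, h, h2⟩
    obtain ⟨rfl, rfl⟩ := pr_inj h
    exact ⟨c, h2⟩
  · rintro ⟨c, h⟩
    exact ⟨m, n, c, rfl, h⟩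

/-- The entry relation in terms of `Ecd`. -/
def Ent {M : Type} [World M] (m n i v : M) : Prop :=
  Ecd (pr m n) (pr i v) ∧ ∀ v', v' < v → ¬ Ecd (pr m n) (pr i v')

theorem entry_iff {M : Type} (w : World M) (m n i v : M) :
    (L2of M w).Entry m n i v ↔ Ent m n i v := by
  have h : ∀ z : M, (L2of M w).Bit m n z ↔ Ecd (pr m n) z := fun z => (ecd_pr (M := M)).symm
  unfold L2Structure.Entry Ent
  constructor
  · rintro ⟨h1, h2⟩
    exact ⟨(h _).1 h1, fun v' hv' hc => h2 v' hv' ((h _).2 hc)⟩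
  · rintro ⟨h1, h2⟩
    exact ⟨(h _).2 h1, fun v' hv' hc => h2 v' hv' ((h _).1 hc)⟩

theorem codes_iff {M : Type} (w : World M) (c k : M) (g : M → M) :
    (L2of M w).Codes c k g ↔
      ∃ m n : M, c = pr k (pr m n) ∧ ∀ i : M, i < k → Ent m n i (g i) := by
  unfold L2Structure.Codes
  constructor
  · rintro ⟨m, n, h1, h2⟩
    exact ⟨m, n, h1, fun i hi => (entry_iff w m n i (g i)).1 (h2 i hi)⟩
  · rintro ⟨m, n, h1, h2⟩
    exact ⟨m, n, h1, fun i hi => (entry_iff w m n i (g i)).2 (h2 i hi)⟩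

theorem exists_codes {M : Type} [World M] (k : M) (g : M → M) [IFn M g] :
    ∃ m n : M, ∀ i : M, i < k → Ent m n i (g i) := by
  rcases (World.zero_le' k).eq_or_lt with hk | hk
  · exact ⟨0, 0, fun i hi => absurd hi (not_lt.2 (hk ▸ World.zero_le' i))⟩
  obtain ⟨B, hB⟩ := bdd (fun i => pr i (g i)) k
  obtain ⟨e, he⟩ := code M (fun z => ∃ i, i < k ∧ z = pr i (g i)) inferInstance B
  have h0 : Ecd e (pr 0 (g 0)) := (he _ (hB 0 hk)).2 ⟨0, hk, rfl⟩
  obtain ⟨m, n, -, rfl, -⟩ := h0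
  refine ⟨m, n, fun i hi => ⟨(he _ (hB i hi)).2 ⟨i, hi, rfl⟩, fun v' hv' hc => ?_⟩⟩
  have h5 : pr i v' < B := lt_trans (pr_lt (add_lt_add_right hv' i)) (hB i hi)
  obtain ⟨j, -, hj⟩ := (he _ h5).1 hc
  obtain ⟨rfl, h6⟩ := pr_inj hj
  exact absurd h6 hv'.ne

theorem ev_eq {M : Type} [World M] {m n i v : M} (h : Ent m n i v) : ev (pr m n) i = v := by
  have : IP M fun v : M => Ecd (pr m n) (pr i v) := by infer_instance
  have h2 : ev (pr m n) i ≤ v := lst_le (P := fun v : M => Ecd (pr m n) (pr i v)) h.1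
  have h3 : Ecd (pr m n) (pr i (ev (pr m n) i)) :=
    lst_spec (P := fun v : M => Ecd (pr m n) (pr i v)) ⟨_, h.1⟩
  rcases h2.lt_or_eq with h4 | h4
  · exact absurd h3 (h.2 _ h4)
  · exact h4

theorem t_FA : G_FA := by
  intro M w
  refine ⟨fun k g hg => ?_, fun c k g h => ?_⟩
  · obtain ⟨m, n, h⟩ := exists_codes k g
    exact ⟨pr k (pr m n), (codes_iff w _ k g).2 ⟨m, n, rfl, h⟩⟩
  · obtain ⟨m, n, -, h⟩ := (codes_iff w c k g).1 h
    refine ⟨Wd.of k (ev (pr m n)), Wd.len_of _ _, fun i hi => ?_⟩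
    rw [Wd.get_of_lt _ _ hi]
    exact ev_eq (h i hi)

end Pool.Agent.Helper80.CS
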