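import Pool.Agent.Helper80.CS.FA

/-!
# Packet CS-FB (MP_81e84b_lc): the theorem in the structure of a world
-/

namespace Pool.Agent.Helper80.CS

open Pool.Agent.Helper6.CS

set_option synthInstance.maxSize 1000000000

theorem num_eq {M : Type} (w : World M) (n : ℕ) : (L2of M w).num n = (n : M) := by
  induction n with
  | zero => exact (Nat.cast_zero (R := M)).symm
  | succ n ih =>
    have h1 : (L2of M w).num (n + 1) = (L2of M w).add ((L2of M w).num n) (L2of M w).one := rfl
    rw [h1, ih]
    exact (Nat.cast_succ (R := M) n).symm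

theorem inS_set {M : Type} (w : World M) (F : M → M) :
    {z : M | ∃ x, z = pr x (F x)} =
      {m : M | ∃ p : M × M, (Cod.cd p : M) = m ∧ F p.1 = p.2} := by
  ext z
  constructor
  · rintro ⟨x, rfl⟩
    exact ⟨(x, F x), rfl, rfl⟩
  · rintro ⟨⟨x, y⟩, rfl, h⟩
    simp only at h
    subst h
    exact ⟨x, rfl⟩

theorem inS_iff {M : Type} (w : World M) (F : M → M) : (L2of M w).InS F ↔ IFn M F := by
  have h : (L2of M w).InS F ↔ {z : M | ∃ x, z = pr x (F x)} ∈ World.X (M := M) := Iff.rfl
  rw [h, inS_set]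
  exact ⟨fun h => ⟨⟨h⟩⟩, fun h => h.g.mem⟩

/-- `c` is a strict code of the word `z`. -/
def Cdz {M : Type} [World M] (z : Wd M) (c : M) : Prop :=
  ∃ m n : M, c = pr z.len (pr m n) ∧ ∀ i : M, i < z.len → Ent m n i (z.get i)

instance {M : Type} [World M] : IP M fun p : Wd M × M => Cdz p.1 p.2 := by
  unfold Cdz Ent
  infer_instance

open Classical in
/-- The colour of a word by its least code. -/
noncomputable def col {M : Type} [World M] (f : M → M) (l : M) (z : Wd M) : M :=
  if f (lst (Cdz z)) < l then f (lst (Cdz z)) else 0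

theorem col_int {M : Type} [World M] (f : M → M) [IFn M f] (l : M) : IFn M (col f l) := by
  have h1 : IFn M fun z : Wd M => lst (Cdz z) := inferInstance
  have h2 : IFn M fun z : Wd M => f (lst (Cdz z)) := IFn.comp (g := f) inferInstance h1
  unfold col
  exact IFn.ite

theorem col_lt {M : Type} [World M] (f : M → M) {l : M} (hl : 0 < l) (z : Wd M) :
    col f l z < l := by
  unfold col
  split_ifs with h
  · exact h
  · exact hl

theorem exists_vw {M : Type} [World M] (n a : M) : ∃ v : Wd M, VW a n v := by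
  refine ⟨Wd.of n fun i => a + i, ?_, ?_, ?_⟩
  · intro i hi
    rw [Wd.len_of] at hi
    rw [Wd.get_of_lt _ _ hi]
    exact add_lt_add_right hi a
  · intro i hi
    refine ⟨i, by rwa [Wd.len_of], ?_⟩
    rw [Wd.get_of_lt _ _ hi]
  · intro i p hp h
    rw [Wd.len_of] at hp
    rw [Wd.get_of_lt _ _ hp] at h
    have h1 : p = i + 1 := add_left_cancel h
    subst h1
    have h2 : i < i + 1 := (World.lt_succ _ _).2 le_rfl
    exact ⟨i, h2, Wd.get_of_lt _ _ (lt_trans h2 hp)⟩

theorem ow_back {M : Type} [World M] (a k : M) (W : M → M) [IFn M W] (hW : OW a W) :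
    ∀ m p : M, W p = a + (k + m) → ∃ q, q ≤ p ∧ W q = a + k := by
  refine ind inferInstance ?_ ?_
  · intro p hp
    exact ⟨p, le_rfl, by rw [hp, add_zero]⟩
  · intro m ih p hp
    obtain ⟨q, hq, h⟩ := hW.2 (k + m) p (by rw [hp, add_assoc])
    obtain ⟨q', hq', h'⟩ := ih q h
    exact ⟨q', hq'.trans hq.le, h'⟩

theorem subst_ok {M : Type} [World M] (a k : M) (W : M → M) [IFn M W] (hW : OW a W) (v' : Wd M)
    (hlen : v'.len = k) (g : M → M) (hget : ∀ i : M, i < k → v'.get i = g i) :
    W (fo a W k) = a + k ∧ (∀ p : M, p < fo a W k → W p ≠ a + k) ∧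
    (∀ p : M, p < fo a W k → W p < a → (inst a W v').get p = W p) ∧
    ∀ p i : M, p < fo a W k → W p = a + i → (inst a W v').get p = g i := by
  have hfo : W (fo a W k) = a + k := lst_spec (P := fun p => W p = a + k) (hW.1 k)
  have hlt' : ∀ p : M, p < fo a W k → W p ≠ a + k := fun p hp h =>
    absurd (lst_le (P := fun p => W p = a + k) h) (not_le.2 hp)
  have hent : ∀ p : M, p < fo a W k →
      (inst a W v').get p = if W p < a then W p else v'.get (W p - a) := by
    intro p hp
    unfold inst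
    rw [Wd.get_of_lt]
    rwa [hlen]
  refine ⟨hfo, hlt', ?_, ?_⟩
  · intro p hp h
    rw [hent p hp, if_pos h]
  · intro p i hp h
    have hik : i < k := by
      by_contra hcon
      rw [not_lt] at hcon
      obtain ⟨m, rfl⟩ := World.exists_add k i hcon
      obtain ⟨q, hq, hq2⟩ := ow_back a k W hW m p h
      exact hlt' q (lt_of_le_of_lt hq hp) hq2
    have h3 : ¬ W p < a := by
      rw [h]
      exact not_lt.2 (le_add_of_nonneg_right (World.zero_le' i))
    rw [hent p hp, if_neg h3, h, add_tsub_cancel_left]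
    exact hget i hik

theorem fb_core {M : Type} (w : World M) (gFA : G_FA) (gVWI : G_VWI) (n : M)
    (hyp : ∀ a : M, OVWw M n a) (l a : M) (hl' : (0 : M) < l) (f : M → M)
    (hfi : IFn M f) (hf2 : ∀ (k : M) (g : M → M) (c c' : M), (L2of M w).IsVarWord n a k g →
      (L2of M w).Codes c k g → (L2of M w).Codes c' k g → f c < l ∧ f c = f c') :
    ∃ W : M → M, (L2of M w).InS W ∧ (L2of M w).IsOmegaWord a W ∧ ∃ c : M, c < l ∧
      ∀ (v k : M) (g : M → M), (L2of M w).Codes v k g → (L2of M w).IsVarWord n a k g →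
        ∃ (d q : M) (h : M → M), (L2of M w).IsSubst a W k g q h ∧ (L2of M w).Codes d q h ∧
          f d = c := by
  obtain ⟨W, hWi, hW, c, hc⟩ := hyp a l (col f l) (col_int f l) (col_lt f hl')
  refine ⟨W, (inS_iff w W).2 hWi, hW, c, ?_, ?_⟩
  · obtain ⟨v, hv⟩ := exists_vw (M := M) n a
    have := hc v hv
    rw [← this]
    exact col_lt f hl' _
  intro v k g hv hg
  obtain ⟨v', hlen, hget⟩ := (gFA M w).2 v k g hv
  have hg1 : ∀ p : M, p < k → g p < a + n := hg.1
  have hg2 : ∀ i : M, i < n → ∃ p, p < k ∧ g p = a + i := hg.2.1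
  have hg3 : ∀ i p : M, p < k → g p = a + (i + 1) → ∃ q, q < p ∧ g q = a + i := hg.2.2
  have hget' : ∀ i : M, i < k → v'.get i = g i := hget
  have hvw : VW a n v' := by
    refine ⟨?_, ?_, ?_⟩
    · intro i hi
      rw [hlen] at hi
      rw [hget' i hi]
      exact hg1 i hi
    · intro i hi
      obtain ⟨p, hp, h⟩ := hg2 i hi
      exact ⟨p, by rw [hlen]; exact hp, by rw [hget' p hp]; exact h⟩
    · intro i p hp h
      rw [hlen] at hp
      rw [hget' p hp] at h
      obtain ⟨q, hq, h'⟩ := hg3 i p hp h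
      exact ⟨q, hq, by rw [hget' q (lt_trans hq hp)]; exact h'⟩
  have hu : VW a n (inst a W v') := gVWI M a n W hWi hW v' hvw
  have hulen : (inst a W v').len = fo a W k := by
    unfold inst
    rw [Wd.len_of, hlen]
  have hcode : ∃ d, Cdz (inst a W v') d := by
    obtain ⟨m', n', h⟩ := exists_codes (inst a W v').len (inst a W v').get
    exact ⟨_, m', n', rfl, h⟩
  have hP : IP M fun d => Cdz (inst a W v') d := inferInstance
  have hd : Cdz (inst a W v') (lst (Cdz (inst a W v'))) := lst_spec hcode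
  have hdc := (codes_iff w (lst (Cdz (inst a W v'))) (inst a W v').len (inst a W v').get).2 hd
  have hvar : (L2of M w).IsVarWord n a (inst a W v').len (inst a W v').get := hu
  have hlt : f (lst (Cdz (inst a W v'))) < l := (hf2 _ _ _ _ hvar hdc hdc).1
  have hcol : f (lst (Cdz (inst a W v'))) = c := by
    have := hc v' hvw
    unfold col at this
    rwa [if_pos hlt] at this
  generalize lst (Cdz (inst a W v')) = d at hdc hcol
  refine ⟨d, fo a W k, (inst a W v').get, ?_, ?_, hcol⟩
  · exact subst_ok a k W hW v' hlen g hget'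
  · rw [← hulen]
    exact hdc

theorem t_FB : G_FB := by
  intro gFA gVWI n M w hyp l a hl f hf
  obtain ⟨hf1, hf2⟩ := hf
  rw [num_eq] at hf2
  obtain ⟨W, h1, h2, c, h3, h4⟩ := fb_core w gFA gVWI (n : M) hyp l a hl f
    ((inS_iff w f).1 hf1) hf2
  refine ⟨W, h1, h2, c, h3, fun v k g hv hg => ?_⟩
  rw [num_eq] at hg
  exact h4 v k g hv hg

end Pool.Agent.Helper80.CS
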